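import Pool.Agent.H29.Sep.CircDef
import Pool.Agent.H89.Perc.Cross
import Pool.Agent.H85.Strict.Corr

/-!
# Open circuits: hooking and meeting
-/

open MeasureTheory ProbabilityTheory unitInterval

namespace Pool.Agent.H29.Sep

open Pool.Agent.H89.Perc Pool.Agent.H61.NC

/-- Restrict the configuration `η` to the edges inside `S`. -/
private noncomputable def ring_cut (η : Config) (S : Set Vert) : Config := by
  classical exact fun e => decide (η e = true ∧ src e ∈ S ∧ tgt e ∈ S)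

private theorem ring_cut_of {η : Config} {S R : Set Vert} {u v : Vert} (h : Conn η S u v)
    (hS : S ⊆ R) : Conn (ring_cut η S) R u v := by
  refine h.induction_right (P := fun x => Conn (ring_cut η S) R u x)
    (Conn.refl (hS h.mem_left)) ?_
  rintro a b _ ⟨h1, h2, e, h3, h4⟩ ih
  refine ih.tail ⟨hS h1, hS h2, e, h3, ?_⟩
  simp only [ring_cut, decide_eq_true_eq]
  refine ⟨h4, ?_⟩
  rcases h3 with ⟨h5, h6⟩ | ⟨h5, h6⟩
  · exact ⟨h5 ▸ h1, h6 ▸ h2⟩
  · exact ⟨h6 ▸ h2, h5 ▸ h1⟩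

private theorem ring_of_cut {η : Config} {S R : Set Vert} {u v : Vert} (hu : u ∈ S)
    (h : Conn (ring_cut η S) R u v) : Conn η S u v := by
  refine h.induction_right (P := fun x => Conn η S u x) (Conn.refl hu) ?_
  rintro a b _ ⟨_, _, e, h3, h4⟩ ih
  simp only [ring_cut, decide_eq_true_eq] at h4
  refine ih.tail ⟨ih.mem_right, ?_, e, h3, h4.1⟩
  rcases h3 with ⟨_, h6⟩ | ⟨_, h6⟩
  · rw [h6]; exact h4.2.2
  · rw [h6]; exact h4.2.1

/-- A left-right crossing is met by a bottom-top path in a smaller domain. -/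
private theorem ring_cross_y {ω η : Config} {a b c d : ℤ} {S : Set Vert} {u v u' v' : Vert}
    (h : Conn ω (rect a b c d) u v) (hu : u.1 = a) (hv : v.1 = b)
    (h' : Conn η S u' v') (hS : S ⊆ rect a b c d) (hu' : u'.2 = c) (hv' : v'.2 = d) :
    ∃ w, Conn ω (rect a b c d) u w ∧ Conn η S u' w := by
  obtain ⟨w, h1, h2⟩ := cross h hu hv (ring_cut_of h' hS) hu' hv'
  exact ⟨w, h1, ring_of_cut h'.mem_left h2⟩

/-- A bottom-top crossing is met by a left-right path in a smaller domain. -/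
private theorem ring_cross_x {ω η : Config} {a b c d : ℤ} {S : Set Vert} {u v u' v' : Vert}
    (h : Conn ω (rect a b c d) u v) (hu : u.2 = c) (hv : v.2 = d)
    (h' : Conn η S u' v') (hS : S ⊆ rect a b c d) (hu' : u'.1 = a) (hv' : v'.1 = b) :
    ∃ w, Conn ω (rect a b c d) u w ∧ Conn η S u' w := by
  obtain ⟨w, h1, h2⟩ := cross (ring_cut_of h' hS) hu' hv' h hu hv
  exact ⟨w, h2, ring_of_cut h'.mem_left h1⟩

/-- The four crossings of a circuit, all of them inside the ring. -/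
private theorem ring_data {ω : Config} {v : Vert} {s : ℕ} (hs : 1 ≤ s) (h : ω ∈ Circ v s) :
    (∃ u u' : Vert, u.1 = v.1 - 3 * s ∧ u'.1 = v.1 + 3 * s ∧
      Conn ω (rect (v.1 - 3 * s) (v.1 + 3 * s) (v.2 + s + 1) (v.2 + 3 * s)) u u' ∧
      ∀ w, Conn ω (rect (v.1 - 3 * s) (v.1 + 3 * s) (v.2 + s + 1) (v.2 + 3 * s)) u w →
        w ∈ ring ω v s) ∧
    (∃ u u' : Vert, u.1 = v.1 - 3 * s ∧ u'.1 = v.1 + 3 * s ∧
      Conn ω (rect (v.1 - 3 * s) (v.1 + 3 * s) (v.2 - 3 * s) (v.2 - s - 1)) u u' ∧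
      ∀ w, Conn ω (rect (v.1 - 3 * s) (v.1 + 3 * s) (v.2 - 3 * s) (v.2 - s - 1)) u w →
        w ∈ ring ω v s) ∧
    (∃ u u' : Vert, u.2 = v.2 - 3 * s ∧ u'.2 = v.2 + 3 * s ∧
      Conn ω (rect (v.1 + s + 1) (v.1 + 3 * s) (v.2 - 3 * s) (v.2 + 3 * s)) u u' ∧
      ∀ w, Conn ω (rect (v.1 + s + 1) (v.1 + 3 * s) (v.2 - 3 * s) (v.2 + 3 * s)) u w →
        w ∈ ring ω v s) ∧
    (∃ u u' : Vert, u.2 = v.2 - 3 * s ∧ u'.2 = v.2 + 3 * s ∧
      Conn ω (rect (v.1 - 3 * s) (v.1 - s - 1) (v.2 - 3 * s) (v.2 + 3 * s)) u u' ∧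
      ∀ w, Conn ω (rect (v.1 - 3 * s) (v.1 - s - 1) (v.2 - 3 * s) (v.2 + 3 * s)) u w →
        w ∈ ring ω v s) := by
  obtain ⟨⟨t, t', ht1, ht2, hT⟩, ⟨b, b', hb1, hb2, hB⟩, ⟨r, r', hr1, hr2, hR⟩,
    ⟨l, l', hl1, hl2, hL⟩⟩ := h
  have sT : rect (v.1 - 3 * s) (v.1 + 3 * s) (v.2 + s + 1) (v.2 + 3 * s) ⊆ ann v s (3 * s) := by
    intro w hw
    simp only [rect, ann, ball, Set.mem_ofPred_eq, Set.mem_sdiff, Nat.cast_mul, Nat.cast_ofNat]
      at hw ⊢
    omega
  have sB : rect (v.1 - 3 * s) (v.1 + 3 * s) (v.2 - 3 * s) (v.2 - s - 1) ⊆ ann v s (3 * s) := by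
    intro w hw
    simp only [rect, ann, ball, Set.mem_ofPred_eq, Set.mem_sdiff, Nat.cast_mul, Nat.cast_ofNat]
      at hw ⊢
    omega
  have sR : rect (v.1 + s + 1) (v.1 + 3 * s) (v.2 - 3 * s) (v.2 + 3 * s) ⊆ ann v s (3 * s) := by
    intro w hw
    simp only [rect, ann, ball, Set.mem_ofPred_eq, Set.mem_sdiff, Nat.cast_mul, Nat.cast_ofNat]
      at hw ⊢
    omega
  have sL : rect (v.1 - 3 * s) (v.1 - s - 1) (v.2 - 3 * s) (v.2 + 3 * s) ⊆ ann v s (3 * s) := by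
    intro w hw
    simp only [rect, ann, ball, Set.mem_ofPred_eq, Set.mem_sdiff, Nat.cast_mul, Nat.cast_ofNat]
      at hw ⊢
    omega
  have ctr : Conn ω (ann v s (3 * s)) t r := by
    obtain ⟨z, h1, h2⟩ := Pool.Agent.H85.Strict.hv_meet hT (by omega) (by omega) hR (by omega)
      (by omega) (by omega) (by omega)
    exact (h1.mono_set sT).trans (h2.mono_set sR).symm
  have ctl : Conn ω (ann v s (3 * s)) t l := by
    obtain ⟨z, h1, h2⟩ := Pool.Agent.H85.Strict.hv_meet hT (by omega) (by omega) hL (by omega)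
      (by omega) (by omega) (by omega)
    exact (h1.mono_set sT).trans (h2.mono_set sL).symm
  have cbr : Conn ω (ann v s (3 * s)) b r := by
    obtain ⟨z, h1, h2⟩ := Pool.Agent.H85.Strict.hv_meet hB (by omega) (by omega) hR (by omega)
      (by omega) (by omega) (by omega)
    exact (h1.mono_set sB).trans (h2.mono_set sR).symm
  refine ⟨⟨t, t', ht1, ht2, hT, fun w hw => ?_⟩, ⟨b, b', hb1, hb2, hB, fun w hw => ?_⟩,
    ⟨r, r', hr1, hr2, hR, fun w hw => ?_⟩, ⟨l, l', hl1, hl2, hL, fun w hw => ?_⟩⟩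
  · exact ⟨t, t', ht1, ht2, hT, hw.mono_set sT⟩
  · exact ⟨t, t', ht1, ht2, hT, (ctr.trans cbr.symm).trans (hw.mono_set sB)⟩
  · exact ⟨t, t', ht1, ht2, hT, ctr.trans (hw.mono_set sR)⟩
  · exact ⟨t, t', ht1, ht2, hT, ctl.trans (hw.mono_set sL)⟩

theorem circ_ring {ω : Config} {v : Vert} {s : ℕ} (hs : 1 ≤ s) (h : ω ∈ Circ v s) :
    IsRing ω v s (ring ω v s) := by
  refine ⟨?_, ?_, ?_⟩
  · rintro w ⟨_, _, _, _, _, hw⟩
    exact hw.mem_right
  · rintro a ⟨t, t', ht1, ht2, hT, ha⟩ b ⟨y, y', hy1, hy2, hY, hb⟩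
    obtain ⟨_, _, ⟨r, r', hr1, hr2, hR⟩, _⟩ := h
    have sT : rect (v.1 - 3 * s) (v.1 + 3 * s) (v.2 + s + 1) (v.2 + 3 * s) ⊆
        ann v s (3 * s) := by
      intro w hw
      simp only [rect, ann, ball, Set.mem_ofPred_eq, Set.mem_sdiff, Nat.cast_mul,
        Nat.cast_ofNat] at hw ⊢
      omega
    have sR : rect (v.1 + s + 1) (v.1 + 3 * s) (v.2 - 3 * s) (v.2 + 3 * s) ⊆
        ann v s (3 * s) := by
      intro w hw
      simp only [rect, ann, ball, Set.mem_ofPred_eq, Set.mem_sdiff, Nat.cast_mul,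
        Nat.cast_ofNat] at hw ⊢
      omega
    obtain ⟨z, h1, h2⟩ := Pool.Agent.H85.Strict.hv_meet hT (by omega) (by omega) hR (by omega)
      (by omega) (by omega) (by omega)
    obtain ⟨z', h1', h2'⟩ := Pool.Agent.H85.Strict.hv_meet hY (by omega) (by omega) hR (by omega)
      (by omega) (by omega) (by omega)
    have c1 : Conn ω (ann v s (3 * s)) t r := (h1.mono_set sT).trans (h2.mono_set sR).symm
    have c2 : Conn ω (ann v s (3 * s)) y r := (h1'.mono_set sT).trans (h2'.mono_set sR).symm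
    exact (ha.symm.trans (c1.trans c2.symm)).trans hb
  · intro η D u u' hc hu hu'
    obtain ⟨⟨t, t', ht1, ht2, hT, hT'⟩, ⟨b, b', hb1, hb2, hB, hB'⟩, ⟨r, r', hr1, hr2, hR, hR'⟩,
      ⟨l, l', hl1, hl2, hL, hL'⟩⟩ := ring_data hs h
    have hu3 : u ∈ ball v (3 * s) := by
      simp only [mem_ball, Nat.cast_mul, Nat.cast_ofNat] at hu ⊢
      omega
    obtain ⟨x, hx, hux⟩ := hc.to_sphere hu3 hu'.symm
    have hx2 := hx.2
    have hx1 := hx.1
    simp only [mem_ball, Nat.cast_mul, Nat.cast_ofNat] at hu hx1 hx2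
    rcases hx2 with h1 | h1 | h1 | h1
    · -- left side
      obtain ⟨p, q, hp, hq, k1, k2, k3⟩ := hux.symm.cross_x (a := v.1 - 3 * s)
        (b := v.1 - s - 1) (by omega) (by omega) (by omega)
      obtain ⟨w, g1, g2⟩ := ring_cross_x hL hl1 hl2 k1 (by
        rintro z ⟨⟨_, hz⟩, hz'⟩
        simp only [mem_ball, Nat.cast_mul, Nat.cast_ofNat] at hz
        simp only [rect, Set.mem_ofPred_eq] at hz' ⊢
        omega) hp hq
      refine ⟨w, hL' w g1, ?_⟩
      exact (hux.mono_set fun z hz => hz.1).trans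
        ((k2.trans (g2.mono_set fun z hz => hz.1)).mono_set fun z hz => hz.1)
    · -- right side
      obtain ⟨p, q, hp, hq, k1, k2, k3⟩ := hux.cross_x (a := v.1 + s + 1)
        (b := v.1 + 3 * s) (by omega) (by omega) (by omega)
      obtain ⟨w, g1, g2⟩ := ring_cross_x hR hr1 hr2 k1 (by
        rintro z ⟨⟨_, hz⟩, hz'⟩
        simp only [mem_ball, Nat.cast_mul, Nat.cast_ofNat] at hz
        simp only [rect, Set.mem_ofPred_eq] at hz' ⊢
        omega) hp hq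
      exact ⟨w, hR' w g1, (k2.trans (g2.mono_set fun z hz => hz.1)).mono_set fun z hz => hz.1⟩
    · -- bottom side
      obtain ⟨p, q, hp, hq, k1, k2, k3⟩ := hux.symm.cross_y (a := v.2 - 3 * s)
        (b := v.2 - s - 1) (by omega) (by omega) (by omega)
      obtain ⟨w, g1, g2⟩ := ring_cross_y hB hb1 hb2 k1 (by
        rintro z ⟨⟨_, hz⟩, hz'⟩
        simp only [mem_ball, Nat.cast_mul, Nat.cast_ofNat] at hz
        simp only [rect, Set.mem_ofPred_eq] at hz' ⊢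
        omega) hp hq
      refine ⟨w, hB' w g1, ?_⟩
      exact (hux.mono_set fun z hz => hz.1).trans
        ((k2.trans (g2.mono_set fun z hz => hz.1)).mono_set fun z hz => hz.1)
    · -- top side
      obtain ⟨p, q, hp, hq, k1, k2, k3⟩ := hux.cross_y (a := v.2 + s + 1)
        (b := v.2 + 3 * s) (by omega) (by omega) (by omega)
      obtain ⟨w, g1, g2⟩ := ring_cross_y hT ht1 ht2 k1 (by
        rintro z ⟨⟨_, hz⟩, hz'⟩
        simp only [mem_ball, Nat.cast_mul, Nat.cast_ofNat] at hz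
        simp only [rect, Set.mem_ofPred_eq] at hz' ⊢
        omega) hp hq
      exact ⟨w, hT' w g1, (k2.trans (g2.mono_set fun z hz => hz.1)).mono_set fun z hz => hz.1⟩

/-- Rings whose centres are at distance at most `4 s` meet. -/
theorem circ_meet {ω : Config} {v v' : Vert} {s : ℕ} (hs : 1 ≤ s) (h : ω ∈ Circ v s)
    (h' : ω ∈ Circ v' s) (h1 : |v.1 - v'.1| ≤ 4 * s) (h2 : |v.2 - v'.2| ≤ 4 * s) :
    ∃ w, w ∈ ring ω v s ∧ w ∈ ring ω v' s := by
  obtain ⟨-, -, ⟨r, r', hr1, hr2, hR, hR'⟩, ⟨l, l', hl1, hl2, hL, hL'⟩⟩ := ring_data hs h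
  obtain ⟨⟨t, t', ht1, ht2, hT, hT'⟩, ⟨b, b', hb1, hb2, hB, hB'⟩, -, -⟩ := ring_data hs h'
  rw [abs_le] at h1 h2
  rcases le_total v.1 v'.1 with k1 | k1 <;> rcases le_total v.2 v'.2 with k2 | k2
  · obtain ⟨z, g1, g2⟩ := Pool.Agent.H85.Strict.hv_meet hB (by omega) (by omega) hR (by omega)
      (by omega) (by omega) (by omega)
    exact ⟨z, hR' z g2, hB' z g1⟩
  · obtain ⟨z, g1, g2⟩ := Pool.Agent.H85.Strict.hv_meet hT (by omega) (by omega) hR (by omega)
      (by omega) (by omega) (by omega)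
    exact ⟨z, hR' z g2, hT' z g1⟩
  · obtain ⟨z, g1, g2⟩ := Pool.Agent.H85.Strict.hv_meet hB (by omega) (by omega) hL (by omega)
      (by omega) (by omega) (by omega)
    exact ⟨z, hL' z g2, hB' z g1⟩
  · obtain ⟨z, g1, g2⟩ := Pool.Agent.H85.Strict.hv_meet hT (by omega) (by omega) hL (by omega)
      (by omega) (by omega) (by omega)
    exact ⟨z, hL' z g2, hT' z g1⟩

end Pool.Agent.H29.Sep
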