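import Pool.Agent.H61.NC.Defs
import Pool.Agent.H89.Perc.Symm

/-!
# Open circuits made of four strip crossings: definitions
-/

open MeasureTheory ProbabilityTheory unitInterval

namespace Pool.Agent.H29.Sep

open Pool.Agent.H89.Perc Pool.Agent.H61.NC

/-- The annulus `ball v r` minus `ball v s`. -/
def ann (v : Vert) (s r : ℕ) : Set Vert := ball v r \ ball v s

/-- Open circuit: four strip crossings of `ball v (3 s)` minus `ball v s`. -/
def Circ (v : Vert) (s : ℕ) : Set Config :=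
  {ω | HCross ω (v.1 - 3 * s) (v.1 + 3 * s) (v.2 + s + 1) (v.2 + 3 * s) ∧
    HCross ω (v.1 - 3 * s) (v.1 + 3 * s) (v.2 - 3 * s) (v.2 - s - 1) ∧
    VCross ω (v.1 + s + 1) (v.1 + 3 * s) (v.2 - 3 * s) (v.2 + 3 * s) ∧
    VCross ω (v.1 - 3 * s) (v.1 - s - 1) (v.2 - 3 * s) (v.2 + 3 * s)}

/-- The edges on which `Circ v s` depends. -/
noncomputable def eCirc (v : Vert) (s : ℕ) : Finset Edge :=
  haveI := Classical.decPred (fun e : Edge => src e ∈ ann v s (3 * s) ∧ tgt e ∈ ann v s (3 * s))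
  (eRect (v.1 - 3 * s) (v.1 + 3 * s) (v.2 - 3 * s) (v.2 + 3 * s)).filter
    (fun e => src e ∈ ann v s (3 * s) ∧ tgt e ∈ ann v s (3 * s))

theorem mem_eCirc {v : Vert} {s : ℕ} {e : Edge} :
    e ∈ eCirc v s ↔ src e ∈ ann v s (3 * s) ∧ tgt e ∈ ann v s (3 * s) := by
  have hball : ∀ w : Vert, w ∈ ball v (3 * s) →
      w ∈ rect (v.1 - 3 * s) (v.1 + 3 * s) (v.2 - 3 * s) (v.2 + 3 * s) := by
    intro w h
    rw [mem_ball] at h
    push_cast at h
    exact h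
  unfold eCirc
  rw [@Finset.mem_filter _ _ (Classical.decPred _)]
  refine ⟨fun h => h.2, fun h => ⟨?_, h⟩⟩
  rw [mem_eRect]
  exact hball _ h.1.1

/-- The top strip is contained in the annulus. -/
theorem circDef_top (v : Vert) (s : ℕ) :
    rect (v.1 - 3 * s) (v.1 + 3 * s) (v.2 + s + 1) (v.2 + 3 * s) ⊆ ann v s (3 * s) := by
  rintro w ⟨h1, h2, h3, h4⟩
  refine ⟨?_, fun h => ?_⟩
  · rw [mem_ball]
    push_cast
    exact ⟨h1, h2, by omega, h4⟩
  · rw [mem_ball] at h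
    omega

/-- The bottom strip is contained in the annulus. -/
theorem circDef_bot (v : Vert) (s : ℕ) :
    rect (v.1 - 3 * s) (v.1 + 3 * s) (v.2 - 3 * s) (v.2 - s - 1) ⊆ ann v s (3 * s) := by
  rintro w ⟨h1, h2, h3, h4⟩
  refine ⟨?_, fun h => ?_⟩
  · rw [mem_ball]
    push_cast
    exact ⟨h1, h2, h3, by omega⟩
  · rw [mem_ball] at h
    omega

/-- The right strip is contained in the annulus. -/
theorem circDef_right (v : Vert) (s : ℕ) :
    rect (v.1 + s + 1) (v.1 + 3 * s) (v.2 - 3 * s) (v.2 + 3 * s) ⊆ ann v s (3 * s) := by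
  rintro w ⟨h1, h2, h3, h4⟩
  refine ⟨?_, fun h => ?_⟩
  · rw [mem_ball]
    push_cast
    exact ⟨by omega, h2, h3, h4⟩
  · rw [mem_ball] at h
    omega

/-- The left strip is contained in the annulus. -/
theorem circDef_left (v : Vert) (s : ℕ) :
    rect (v.1 - 3 * s) (v.1 - s - 1) (v.2 - 3 * s) (v.2 + 3 * s) ⊆ ann v s (3 * s) := by
  rintro w ⟨h1, h2, h3, h4⟩
  refine ⟨?_, fun h => ?_⟩
  · rw [mem_ball]
    push_cast
    exact ⟨h1, by omega, h3, h4⟩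
  · rw [mem_ball] at h
    omega

theorem localOn_circ (v : Vert) (s : ℕ) : LocalOn (eCirc v s) (Circ v s) := by
  intro ω ω' hω h
  have key : ∀ (S : Set Vert), S ⊆ ann v s (3 * s) → ∀ u u' : Vert, Conn ω S u u' →
      Conn ω' S u u' := by
    intro S hS u u' hc
    exact hc.congr fun e h1 h2 => hω e (mem_eCirc.2 ⟨hS h1, hS h2⟩)
  obtain ⟨⟨u1, v1, a1, b1, c1⟩, ⟨u2, v2, a2, b2, c2⟩, ⟨u3, v3, a3, b3, c3⟩,
    ⟨u4, v4, a4, b4, c4⟩⟩ := h
  exact ⟨⟨u1, v1, a1, b1, key _ (circDef_top v s) _ _ c1⟩,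
    ⟨u2, v2, a2, b2, key _ (circDef_bot v s) _ _ c2⟩,
    ⟨u3, v3, a3, b3, key _ (circDef_right v s) _ _ c3⟩,
    ⟨u4, v4, a4, b4, key _ (circDef_left v s) _ _ c4⟩⟩

theorem incr_circ (v : Vert) (s : ℕ) : Incr (Circ v s) := by
  intro ω ω' hω h
  obtain ⟨⟨u1, v1, a1, b1, c1⟩, ⟨u2, v2, a2, b2, c2⟩, ⟨u3, v3, a3, b3, c3⟩,
    ⟨u4, v4, a4, b4, c4⟩⟩ := h
  exact ⟨⟨u1, v1, a1, b1, c1.mono subset_rfl hω⟩,
    ⟨u2, v2, a2, b2, c2.mono subset_rfl hω⟩,
    ⟨u3, v3, a3, b3, c3.mono subset_rfl hω⟩,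
    ⟨u4, v4, a4, b4, c4.mono subset_rfl hω⟩⟩

/-- `C` is an open ring around `ball v s` in `ball v (3 s)`: it is connected by open edges inside the
annulus and every lattice path from `ball v s` to `sphere v (3 s)` meets it. -/
def IsRing (ω : Config) (v : Vert) (s : ℕ) (C : Set Vert) : Prop :=
  C ⊆ ann v s (3 * s) ∧ (∀ a ∈ C, ∀ b ∈ C, Conn ω (ann v s (3 * s)) a b) ∧
    ∀ (η : Config) (D : Set Vert) (u u' : Vert), Conn η D u u' → u ∈ ball v s →
      (u' ∈ sphere v (3 * s) ∨ u' ∉ ball v (3 * s)) → ∃ w ∈ C, Conn η D u w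

/-- The ring of a configuration in `Circ v s`: everything joined inside the annulus to a crossing of
the top strip. -/
def ring (ω : Config) (v : Vert) (s : ℕ) : Set Vert :=
  {w | ∃ u u' : Vert, u.1 = v.1 - 3 * s ∧ u'.1 = v.1 + 3 * s ∧
    Conn ω (rect (v.1 - 3 * s) (v.1 + 3 * s) (v.2 + s + 1) (v.2 + 3 * s)) u u' ∧
    Conn ω (ann v s (3 * s)) u w}

end Pool.Agent.H29.Sep
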