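import Pool.Agent.H61.NC.Defs

/-!
# Interfaces of the separation part

Everything is for densities `q` with `RSWreg c n q`; constants depend only on `c`.
-/

open MeasureTheory ProbabilityTheory unitInterval

namespace Pool.Agent.H29.Sep

open Pool.Agent.H89.Perc Pool.Agent.H61.NC

/-- The domain between `sphere 0 t` and `sphere 0 R` (both included), `1 ≤ t ≤ R`. -/
def dom (t R : ℕ) : Set Vert := ball 0 R \ ball 0 (t - 1)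

/-- Two distinct clusters of the annulus `dom t R` join `sphere 0 t` to `sphere 0 R`. -/
def A2 (t R : ℕ) : Set Config :=
  {ω | ∃ u ∈ sphere 0 R, ∃ u' ∈ sphere 0 R, ∃ v ∈ sphere 0 t, ∃ v' ∈ sphere 0 t,
    Conn ω (dom t R) u v ∧ Conn ω (dom t R) u' v' ∧ ¬ Conn ω (dom t R) u u'}

/-- Two-terminal event: a cluster of `dom t R` touching `L` and not touching `K` reaches
`sphere 0 t`, and a cluster touching `K` reaches `sphere 0 t`. -/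
def BT (t R : ℕ) (L K : Set Vert) : Set Config :=
  {ω | (∃ u ∈ L, ∃ v ∈ sphere 0 t, Conn ω (dom t R) u v ∧ ∀ w ∈ K, ¬ Conn ω (dom t R) u w) ∧
    ∃ w ∈ K, ∃ v ∈ sphere 0 t, Conn ω (dom t R) w v}

/-- Two distinct clusters of `D ∩ ball z ρ` join `ball z t` to `sphere z ρ`. -/
def LocTwo (D : Set Vert) (z : Vert) (t ρ : ℕ) : Set Config :=
  {ω | ∃ u ∈ ball z t, ∃ u' ∈ ball z t, ∃ v ∈ sphere z ρ, ∃ v' ∈ sphere z ρ,
    Conn ω (D ∩ ball z ρ) u v ∧ Conn ω (D ∩ ball z ρ) u' v' ∧ ¬ Conn ω (D ∩ ball z ρ) u u'}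

/-- S1, inner side (owner helper26). -/
def BadIn : Prop :=
  ∀ c : ℝ, 0 < c → ∃ C κ : ℝ, 0 < C ∧ 0 < κ ∧ ∀ (n t ρ r : ℕ) (q : I), 1 ≤ t → t ≤ ρ →
    2 * ρ ≤ r → r ≤ n → RSWreg c n q →
      Pr q {ω | ∃ z ∈ sphere 0 r, ω ∈ LocTwo (ball 0 r) z t ρ} ≤
        C * ((r : ℝ) / ρ) * ((t : ℝ) / ρ) ^ κ

/-- S1, outer side (owner helper26). -/
def BadOut : Prop :=
  ∀ c : ℝ, 0 < c → ∃ C κ : ℝ, 0 < C ∧ 0 < κ ∧ ∀ (n t ρ r : ℕ) (q : I), 1 ≤ t → t ≤ ρ →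
    2 * ρ ≤ r → r ≤ n → RSWreg c n q →
      Pr q {ω | ∃ z ∈ sphere 0 r, ω ∈ LocTwo (ball 0 (r - 1))ᶜ z t ρ} ≤
        C * ((r : ℝ) / ρ) * ((t : ℝ) / ρ) ^ κ

/-- S4 (owner helper57): gluing with terminals. -/
def GLT : Prop :=
  ∀ c ε : ℝ, 0 < c → 0 < ε → ∃ (C : ℝ) (k₀ : ℕ), 0 < C ∧ 1 ≤ k₀ ∧
    ∀ (n k R : ℕ) (q : I) (L K : Set Vert), k₀ ≤ k → 64 * 4 ^ k ≤ R → R ≤ n → RSWreg c n q →
      L ⊆ sphere 0 R → K ⊆ sphere 0 R →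
      a4 q (4 ^ k) * Pr q (BT (4 * 4 ^ k) R L K) ≤
        C * a4 q R + ε * (a4 q (4 ^ (k - 1)) * Pr q (BT (16 * 4 ^ k) R L K))

/-- S3 (owner helper59): regularity of the four-arm probability. -/
def RegA4 : Prop :=
  ∀ c : ℝ, 0 < c → ∃ C : ℝ, 0 < C ∧ ∀ (n r : ℕ) (q : I), 1 ≤ r → 64 * r ≤ n → RSWreg c n q →
    a4 q r ≤ C * a4 q (4 * r)

/-- S2 + S3 (owner helper59): four arms at scale `N / 64` cost at most a pivotal edge of the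
torus. -/
def SepTorus : Prop :=
  ∀ c : ℝ, 0 < c → ∃ C : ℝ, 0 < C ∧ ∀ (N r : ℕ) (q : I) (d : Bool), 1 ≤ r → N ≤ 64 * r →
    4 * r ≤ N → RSWreg c N q → a4 q r ≤ C * sT q N d

/-- S5 (helper29): quasi-multiplicativity for the planar annulus. -/
def QMann : Prop :=
  ∀ c : ℝ, 0 < c → ∃ C : ℝ, 0 < C ∧ ∀ (n r R : ℕ) (q : I), 1 ≤ r → 16 * r ≤ R → 64 * R ≤ n →
    RSWreg c n q → a4 q r * Pr q (A2 (16 * r) R) ≤ C * a4 q R

end Pool.Agent.H29.Sep
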