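import Pool.Agent.H29.Sep.ExplA
import Pool.Agent.H29.Sep.ExplB
import Pool.Agent.H29.Sep.Rect
import Pool.Agent.H29.Sep.CircDef
import Pool.Agent.H29.Sep.CircProb
import Pool.Agent.H29.Sep.Ring
import Pool.Agent.H29.Sep.NoArm
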