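import Pool.Agent.H29.Sep.Iface
import Pool.Agent.H61.NC.A4Basic

/-!
# Small scales: finite energy
-/

open MeasureTheory ProbabilityTheory unitInterval

namespace Pool.Agent.H29.Sep

open Pool.Agent.H89.Perc Pool.Agent.H61.NC

/-- The probability that one edge is open. -/
theorem a4Low_open (q : I) (e : Edge) : Pr q {ω : Config | ω e = true} = q := by
  have hloc : LocalOn {e} {ω : Config | ω e = true} := by
    intro ω ω' h hω
    rw [Set.mem_ofPred_eq, ← h e (Finset.mem_singleton_self e)]
    exact hω
  rw [Pr_eq_update hloc e]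
  have h1 : {ω : Config | Function.update ω e true ∈ {ω : Config | ω e = true}} = Set.univ := by
    ext ω; simp
  have h2 : {ω : Config | Function.update ω e false ∈ {ω : Config | ω e = true}} = ∅ := by
    ext ω; simp
  rw [h1, h2, Pr_univ]
  simp [Pr]

private theorem a4Low_hcross (q : I) {c : ℝ} (h : c ≤ Pr q {ω | HCross ω 0 (4 * ((1 : ℕ) : ℤ)) 0 ((1 : ℕ) : ℤ)}) :
    c / 16 ≤ (q : ℝ) := by
  have hsub : {ω : Config | HCross ω 0 (4 * ((1 : ℕ) : ℤ)) 0 ((1 : ℕ) : ℤ)} ⊆
      {ω | ω (0, 0, false) = true} ∪ {ω | ω (0, 1, false) = true} := by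
    rintro ω ⟨u, v, hu, hv, hc⟩
    by_contra hno
    simp only [Set.mem_union, Set.mem_ofPred_eq, not_or] at hno
    have hP : v.1 ≤ 0 := by
      refine hc.induction_right (P := fun w => w.1 ≤ 0) (by omega) ?_
      intro a b _ hab ha
      obtain ⟨ha', hb', f, hf, ho⟩ := hab
      obtain ⟨x, y, d⟩ := f
      simp only [rect, Set.mem_ofPred_eq] at ha' hb'
      rcases d
      · rcases hf with ⟨h3, h4⟩ | ⟨h3, h4⟩
        · subst h3 h4
          simp only [src, tgt, Bool.false_eq_true, if_false] at ha ha' hb' ⊢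
          have hx : x = 0 := by omega
          subst hx
          have hy : y = 0 ∨ y = 1 := by omega
          rcases hy with hy | hy
          · subst hy; exact absurd ho hno.1
          · subst hy; exact absurd ho hno.2
        · subst h3 h4
          simp only [src, tgt, Bool.false_eq_true, if_false] at ha ha' hb' ⊢
          omega
      · rcases hf with ⟨h3, h4⟩ | ⟨h3, h4⟩ <;>
        · subst h3 h4
          simpa [src, tgt] using ha
    rw [hv] at hP
    norm_num at hP
  have h1 := (h.trans (Pr_mono hsub)).trans Pr_union_le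
  rw [a4Low_open, a4Low_open] at h1
  have h2 : (0 : ℝ) ≤ q := q.2.1
  linarith

/-- In the regime the density is bounded away from `0` and `1`. -/
theorem rswreg_density {c : ℝ} {n : ℕ} {q : I} (hn : 1 ≤ n) (h : RSWreg c n q) :
    c / 16 ≤ (q : ℝ) ∧ (q : ℝ) ≤ 1 - c / 16 := by
  obtain ⟨h1, h2⟩ := h 1 le_rfl hn
  have h3 := a4Low_hcross q h1
  have h4 := a4Low_hcross (σ q) h2
  rw [unitInterval.coe_symm_eq] at h4
  exact ⟨h3, by linarith⟩

theorem a4_le_one (q : I) (r : ℕ) : a4 q r ≤ 1 := Pr_le_one

theorem a4_anti {q : I} {r r' : ℕ} (h1 : 1 ≤ r) (h : r ≤ r') : a4 q r' ≤ a4 q r :=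
  Pr_mono (A4_anti h1 h)

/-- Finite energy: every configuration on a finite set has probability bounded below. -/
theorem a4Low_cyl (q : I) {t : ℝ} (ht : 0 ≤ t) (h1 : t ≤ (q : ℝ)) (h2 : (q : ℝ) ≤ 1 - t)
    (b : Config) (s : Finset Edge) :
    t ^ s.card ≤ Pr q {ω | ∀ e ∈ s, ω e = b e} := by
  classical
  induction s using Finset.induction_on with
  | empty =>
    have : {ω : Config | ∀ e ∈ (∅ : Finset Edge), ω e = b e} = Set.univ := by
      ext ω; simp
    rw [this, Pr_univ]
    simp
  | @insert a s ha ih =>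
    have hloc : LocalOn (insert a s) {ω : Config | ∀ e ∈ insert a s, ω e = b e} := by
      intro ω ω' h hω e he
      rw [← h e he]
      exact hω e he
    have hne : ∀ e ∈ s, e ≠ a := fun e he hea => ha (hea ▸ he)
    have hup : ∀ c : Bool, c = b a →
        {ω : Config | Function.update ω a c ∈ {ω : Config | ∀ e ∈ insert a s, ω e = b e}} =
          {ω | ∀ e ∈ s, ω e = b e} := by
      intro c hc
      ext ω
      simp only [Set.mem_ofPred_eq, Finset.mem_insert, forall_eq_or_imp, Function.update_self]
      constructor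
      · rintro ⟨-, h⟩ e he
        have := h e he
        rwa [Function.update_of_ne (hne e he)] at this
      · intro h
        refine ⟨hc, fun e he => ?_⟩
        rw [Function.update_of_ne (hne e he)]
        exact h e he
    rw [Pr_eq_update hloc a, Finset.card_insert_of_notMem ha, pow_succ]
    have hn : ∀ A : Set Config, 0 ≤ Pr q A := fun A => Pr_nonneg
    have hp : (0 : ℝ) ≤ t ^ s.card := by positivity
    have hq0 : (0 : ℝ) ≤ q := ht.trans h1
    have hq1 : (0 : ℝ) ≤ 1 - (q : ℝ) := by linarith
    cases hb : b a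
    · rw [hup false hb.symm]
      have h3 := hn {ω | Function.update ω a true ∈ {ω : Config | ∀ e ∈ insert a s, ω e = b e}}
      have h4 : 0 ≤ (q : ℝ) * Pr q {ω | Function.update ω a true ∈
          {ω : Config | ∀ e ∈ insert a s, ω e = b e}} := mul_nonneg hq0 h3
      have h5 : t * t ^ s.card ≤ (1 - (q : ℝ)) *
          Pr q {ω | ∀ e ∈ s, ω e = b e} :=
        mul_le_mul (by linarith) ih hp hq1
      linarith
    · rw [hup true hb.symm]
      have h3 := hn {ω | Function.update ω a false ∈ {ω : Config | ∀ e ∈ insert a s, ω e = b e}}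
      have h4 : 0 ≤ (1 - (q : ℝ)) * Pr q {ω | Function.update ω a false ∈
          {ω : Config | ∀ e ∈ insert a s, ω e = b e}} := mul_nonneg hq1 h3
      have h5 : t * t ^ s.card ≤ (q : ℝ) *
          Pr q {ω | ∀ e ∈ s, ω e = b e} :=
        mul_le_mul (by linarith) ih hp hq0
      linarith

/-- The explicit configuration: exactly the horizontal edges of the axis are open. -/
theorem a4Low_sub (r : ℕ) (hr : 1 ≤ r) :
    {ω : Config | ∀ e ∈ eRect (-r) r (-r) r, ω e = decide (e.2.1 = 0 ∧ e.2.2 = false)} ⊆
      A4 (0, 0, false) r := by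
  intro ω hω
  have hball : ∀ w : Vert, w ∈ ball (src ((0 : ℤ), (0 : ℤ), false)) r ↔ w ∈ rect (-r) r (-r) r := by
    intro w
    simp only [mem_ball, src, rect, Set.mem_ofPred_eq]
    omega
  have hcl : ∀ f : Edge, f ≠ (0, 0, false) → close (0, 0, false) ω f = ω f := by
    intro f hf
    unfold close
    rw [Function.update_of_ne hf]
  have hcl0 : close (0, 0, false) ω (0, 0, false) = false := by
    unfold close
    rw [Function.update_self]
  have hopen : ∀ x : ℤ, -r ≤ x → x ≤ r → x ≠ 0 → close (0, 0, false) ω (x, 0, false) = true := by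
    intro x h1 h2 h3
    rw [hcl _ (by simpa using h3), hω (x, 0, false) (mem_eRect.2 (by
      simp only [src, rect, Set.mem_ofPred_eq]; omega))]
    simp
  -- the left arm
  have hleft : ∀ k : ℕ, k ≤ r → Conn (close (0, 0, false) ω) (ball (src ((0 : ℤ), (0 : ℤ), false)) r)
      (0, 0) (-(k : ℤ), 0) := by
    intro k
    induction k with
    | zero =>
      intro _
      simpa using Conn.refl ((hball (0, 0)).2 (by simp only [rect, Set.mem_ofPred_eq]; omega))
    | succ k ih =>
      intro hk
      have h1 := ih (by omega)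
      refine h1.tail ⟨h1.mem_right, (hball _).2 (by
        simp only [rect, Set.mem_ofPred_eq]; push_cast; omega), (-(k : ℤ) - 1, 0, false), ?_, ?_⟩
      · right
        constructor
        · simp [tgt]
        · simp only [src, Prod.mk.injEq, and_true]; push_cast; ring
      · exact hopen _ (by omega) (by omega) (by omega)
  have hright : ∀ k : ℕ, k + 1 ≤ r → Conn (close (0, 0, false) ω)
      (ball (src ((0 : ℤ), (0 : ℤ), false)) r) (1, 0) ((k : ℤ) + 1, 0) := by
    intro k
    induction k with
    | zero =>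
      intro _
      simpa using Conn.refl ((hball (1, 0)).2 (by simp only [rect, Set.mem_ofPred_eq]; omega))
    | succ k ih =>
      intro hk
      have h1 := ih (by omega)
      refine h1.tail ⟨h1.mem_right, (hball _).2 (by
        simp only [rect, Set.mem_ofPred_eq]; push_cast; omega), ((k : ℤ) + 1, 0, false), ?_, ?_⟩
      · left
        constructor
        · simp [src]
        · simp [tgt]
      · exact hopen _ (by omega) (by omega) (by omega)
  refine ⟨⟨(-(r : ℤ), 0), ?_, ?_⟩, ⟨((r : ℤ), 0), ?_, ?_⟩, ?_⟩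
  · refine ⟨(hball _).2 ?_, Or.inl (by simp [src])⟩
    simp only [rect, Set.mem_ofPred_eq]; omega
  · exact hleft r le_rfl
  · refine ⟨(hball _).2 ?_, Or.inr (Or.inl (by simp [src]))⟩
    simp only [rect, Set.mem_ofPred_eq]; omega
  · have h1 := hright (r - 1) (by omega)
    have h2 : (((r - 1 : ℕ) : ℤ) + 1) = r := by omega
    rw [h2] at h1
    have h3 : tgt ((0 : ℤ), (0 : ℤ), false) = (1, 0) := by simp [tgt]
    rw [h3]
    exact h1
  · intro hc
    have hP : (tgt ((0 : ℤ), (0 : ℤ), false)).1 ≤ 0 ∧ (tgt ((0 : ℤ), (0 : ℤ), false)).2 = 0 := by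
      refine hc.induction_right (P := fun w => w.1 ≤ 0 ∧ w.2 = 0) (by simp [src]) ?_
      intro a b _ hab hPa
      obtain ⟨ha, hb, f, hf, ho⟩ := hab
      have hfe : f ≠ (0, 0, false) := by
        intro h
        rw [h, hcl0] at ho
        exact absurd ho (by decide)
      rw [hcl _ hfe] at ho
      have hsrc : src f ∈ ball (src ((0 : ℤ), (0 : ℤ), false)) r := by
        rcases hf with ⟨h3, _⟩ | ⟨_, h3⟩
        · rw [← h3]; exact ha
        · rw [← h3]; exact hb
      rw [hω f (mem_eRect.2 ((hball _).1 hsrc))] at ho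
      obtain ⟨x, y, d⟩ := f
      simp only [decide_eq_true_eq] at ho
      obtain ⟨hy, hd⟩ := ho
      subst hy hd
      have hx : x ≠ 0 := by
        intro h
        exact hfe (by rw [h])
      rcases hf with ⟨h3, h4⟩ | ⟨h3, h4⟩
      · subst h3 h4
        simp only [src, tgt, Bool.false_eq_true, if_false] at hPa ⊢
        exact ⟨by omega, trivial⟩
      · subst h3 h4
        simp only [src, tgt, Bool.false_eq_true, if_false] at hPa ⊢
        exact ⟨by omega, trivial⟩
    simp [tgt] at hP

/-- The four-arm probability at bounded scales is bounded below.  (For `r = 0` the event `A4` is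
empty, hence the hypothesis `1 ≤ r`.) -/
theorem a4_low (c : ℝ) (hc : 0 < c) (r : ℕ) (hr : 1 ≤ r) : ∃ c₀ : ℝ, 0 < c₀ ∧ ∀ (n : ℕ) (q : I), 1 ≤ n →
    RSWreg c n q → c₀ ≤ a4 q r := by
  refine ⟨(c / 16) ^ (eRect (-r) r (-r) r).card, by positivity, ?_⟩
  intro n q hn h
  obtain ⟨h1, h2⟩ := rswreg_density hn h
  exact (a4Low_cyl q (by positivity) h1 h2 _ _).trans (Pr_mono (a4Low_sub r hr))

end Pool.Agent.H29.Sep
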