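import Pool.Agent.H29.Sep.Iface
import Pool.Agent.H61.NC.A4Basic
import Pool.Agent.H61.NC.BlockTwo

/-!
# A pivotal block of the torus is surrounded by two distinct crossing clusters
-/

open MeasureTheory ProbabilityTheory unitInterval

namespace Pool.Agent.H29.Sep

open Pool.Agent.H89.Perc Pool.Agent.H61.NC

private lemma blockAnn_sphere {r : ℕ} {u v : Vert} :
    ((u.1 - v.1, u.2 - v.2) : Vert) ∈ sphere 0 r ↔ u ∈ sphere v r := by
  simp only [sphere, ball, rect, Set.mem_ofPred_eq, Prod.fst_zero, Prod.snd_zero]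
  omega

private lemma blockAnn_dom {t R : ℕ} {u v : Vert} :
    ((u.1 - v.1, u.2 - v.2) : Vert) ∈ dom t R ↔ u ∈ Pool.Agent.H61.NC.Ring v t R := by
  simp only [dom, Pool.Agent.H61.NC.Ring, ball, rect, Set.mem_sdiff, Set.mem_ofPred_eq,
    Prod.fst_zero, Prod.snd_zero]
  omega

/-- The annulus events at `v` and at `0`. -/
private lemma blockAnn_shift {ω : Config} {v : Vert} {t R : ℕ} (h : ω ∈ Two v t R) :
    (fun e => ω (shiftE v e)) ∈ A2 t R := by
  obtain ⟨u, u', hu, hu', ⟨w, hw, h1⟩, ⟨w', hw', h2⟩, h3⟩ := h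
  have hset : {w : Vert | (w.1 - v.1, w.2 - v.2) ∈ dom t R} = Pool.Agent.H61.NC.Ring v t R := by
    ext w
    exact blockAnn_dom
  have key : ∀ x y : Vert, Conn (fun e => ω (shiftE v e)) (dom t R)
      (x.1 - v.1, x.2 - v.2) (y.1 - v.1, y.2 - v.2) ↔
      Conn ω (Pool.Agent.H61.NC.Ring v t R) x y := by
    intro x y
    rw [conn_shift v (dom t R), hset]
    simp only [sub_add_cancel, Prod.mk.eta]
  refine ⟨_, blockAnn_sphere.2 hw, _, blockAnn_sphere.2 hw', _, blockAnn_sphere.2 hu, _,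
    blockAnn_sphere.2 hu', (key _ _).2 h1.symm, (key _ _).2 h2.symm, ?_⟩
  rw [key]
  exact fun h4 => h3 ((h1.trans h4).trans h2.symm)

private lemma blockAnn_local (t R : ℕ) : LocalOn (eRect (-R) R (-R) R) (A2 t R) := by
  rintro ω ω' h ⟨u, hu, u', hu', v, hv, v', hv', h1, h2, h3⟩
  have hmem : ∀ e : Edge, src e ∈ dom t R → e ∈ eRect (-(R : ℤ)) R (-R) R := by
    intro e he
    rw [mem_eRect]
    have := he.1
    simp only [ball, rect, Set.mem_ofPred_eq, Prod.fst_zero, Prod.snd_zero] at this ⊢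
    omega
  refine ⟨u, hu, u', hu', v, hv, v', hv', h1.congr fun e he _ => h e (hmem e he),
    h2.congr fun e he _ => h e (hmem e he), fun h4 => h3 ?_⟩
  exact h4.congr fun e he _ => (h e (hmem e he)).symm

theorem blockPiv_le {N ρ R : ℕ} (q : I) (h1 : 1 ≤ ρ) (h2 : ρ + 2 ≤ R) (h3 : 4 * R ≤ N) :
    Pr q (BlockPiv N ρ) ≤ Pr q (A2 (ρ + 2) R) := by
  have hinj : Set.InjOn (fun e => modE N (shiftE (mid N, mid N) e)) (eRect (-(R : ℤ)) R (-R) R) := by
    intro e he e' he' hee
    rw [Finset.mem_coe, mem_eRect] at he he'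
    simp only [src, rect, Set.mem_ofPred_eq] at he he'
    simp only [modE, shiftE, Prod.mk.injEq] at hee
    obtain ⟨x, y, d⟩ := e
    obtain ⟨x', y', d'⟩ := e'
    simp only at he he' hee
    obtain ⟨hx, hy, hd⟩ := hee
    have key : ∀ a b : ℤ, -(R : ℤ) ≤ a → a ≤ R → -(R : ℤ) ≤ b → b ≤ R →
        (a + mid N) % N = (b + mid N) % N → a = b := by
      intro a b ha1 ha2 hb1 hb2 hab
      have h5 : (N : ℤ) ∣ (b + mid N) - (a + mid N) :=
        Int.ModEq.dvd (show a + mid N ≡ b + mid N [ZMOD N] from hab)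
      have h6 : (b + mid N) - (a + mid N) = b - a := by ring
      rw [h6] at h5
      have h7 : |b - a| < N := by
        rw [abs_lt]
        constructor <;> omega
      have := Int.eq_zero_of_abs_lt_dvd h5 h7
      omega
    rw [key x x' he.1 he.2.1 he'.1 he'.2.1 hx, key y y' he.2.2.1 he.2.2.2 he'.2.2.1 he'.2.2.2 hy,
      hd]
  rw [← Pr_comp (blockAnn_local (ρ + 2) R) hinj]
  refine Pr_mono fun ω hω => ?_
  exact blockAnn_shift (two_of_blockPiv (N := N) (R := ρ) (t := ρ + 2) (R' := R) (by omega) h2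
    (by omega) hω)

end Pool.Agent.H29.Sep
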