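import Pool.Agent.H89.Perc.Symm

/-!
# Exploration of full clusters and conditional FKG

`cl ω D X` is the open cluster of the vertex set `X` inside the vertex set `D`.  The event
`cl ω D X = S` only depends on the edges touching `S`; all other edges are fresh.
-/

open MeasureTheory ProbabilityTheory unitInterval

namespace Pool.Agent.H29.Sep

open Pool.Agent.H89.Perc

variable {p : I}

/-- Open cluster of the vertex set `X` inside `D`. -/
def cl (ω : Config) (D X : Set Vert) : Set Vert := {v | ∃ u ∈ X, Conn ω D u v}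

/-- The edges of `s` touching the vertex set `S`. -/
noncomputable def touch (s : Finset Edge) (S : Set Vert) : Finset Edge := by
  classical exact s.filter (fun e => src e ∈ S ∨ tgt e ∈ S)

/-- The edges of `s` not touching the vertex set `S`. -/
noncomputable def off (s : Finset Edge) (S : Set Vert) : Finset Edge := by
  classical exact s.filter (fun e => src e ∉ S ∧ tgt e ∉ S)

theorem mem_touch {s : Finset Edge} {S : Set Vert} {e : Edge} :
    e ∈ touch s S ↔ e ∈ s ∧ (src e ∈ S ∨ tgt e ∈ S) := by
  classical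
  unfold touch
  exact Finset.mem_filter

theorem mem_off {s : Finset Edge} {S : Set Vert} {e : Edge} :
    e ∈ off s S ↔ e ∈ s ∧ src e ∉ S ∧ tgt e ∉ S := by
  classical
  unfold off
  exact Finset.mem_filter

theorem touch_disj (s t : Finset Edge) (S : Set Vert) : Disjoint (touch s S) (off t S) := by
  rw [Finset.disjoint_left]
  intro e h1 h2
  rw [mem_touch] at h1
  rw [mem_off] at h2
  rcases h1.2 with h | h
  · exact h2.2.1 h
  · exact h2.2.2 h

theorem cl_sub {ω : Config} {D X : Set Vert} : cl ω D X ⊆ D := by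
  rintro v ⟨u, _, h⟩
  exact h.mem_right

/-- No open edge of `D` leaves a cluster. -/
theorem cl_step {ω : Config} {D X : Set Vert} {a b : Vert} (ha : a ∈ cl ω D X)
    (h : Step ω D a b) : b ∈ cl ω D X := by
  obtain ⟨u, hu, hua⟩ := ha
  exact ⟨u, hu, hua.tail h⟩

/-- A vertex joined to a vertex of the cluster is in the cluster. -/
theorem cl_conn {ω : Config} {D X : Set Vert} {a b : Vert} (ha : a ∈ cl ω D X)
    (h : Conn ω D a b) : b ∈ cl ω D X := by
  obtain ⟨u, hu, hua⟩ := ha
  exact ⟨u, hu, hua.trans h⟩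

/-- Connections of vertices off the cluster stay off the cluster. -/
theorem conn_off {ω : Config} {D X : Set Vert} {a b : Vert} (ha : a ∉ cl ω D X)
    (h : Conn ω D a b) : Conn ω (D \ cl ω D X) a b := by
  refine h.induction_right (P := fun b => Conn ω (D \ cl ω D X) a b)
    (Conn.refl ⟨h.mem_left, ha⟩) ?_
  intro a' b' h1 h2 h3
  have h4 : a' ∉ cl ω D X := fun h5 => ha (cl_conn h5 h1.symm)
  have h5 : b' ∉ cl ω D X := fun h6 => ha (cl_conn h6 (h1.tail h2).symm)
  exact h3.tail ⟨⟨h2.1, h4⟩, ⟨h2.2.1, h5⟩, h2.2.2⟩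

/-- a step starting in `S` only uses an edge touching `S` -/
private theorem explA_step {ω ω' : Config} {s : Finset Edge} {D S : Set Vert}
    (hs : ∀ e, src e ∈ D → tgt e ∈ D → e ∈ s) (h : ∀ e ∈ touch s S, ω e = ω' e) {a b : Vert}
    (ha : a ∈ S) (st : Step ω D a b) : Step ω' D a b := by
  obtain ⟨h1, h2, e, he, ho⟩ := st
  refine ⟨h1, h2, e, he, ?_⟩
  rcases he with ⟨h3, h4⟩ | ⟨h3, h4⟩
  · rw [← h e (mem_touch.2 ⟨hs e (h3 ▸ h1) (h4 ▸ h2), Or.inl (h3 ▸ ha)⟩)]
    exact ho
  · rw [← h e (mem_touch.2 ⟨hs e (h4 ▸ h2) (h3 ▸ h1), Or.inr (h3 ▸ ha)⟩)]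
    exact ho

/-- The value of a cluster is decided by the edges touching it. -/
theorem localOn_cl {s : Finset Edge} {D X S : Set Vert}
    (hs : ∀ e, src e ∈ D → tgt e ∈ D → e ∈ s) :
    LocalOn (touch s S) {ω | cl ω D X = S} := by
  intro ω ω' hω hcl
  change cl ω D X = S at hcl
  change cl ω' D X = S
  have hω' : ∀ e ∈ touch s S, ω' e = ω e := fun e he => (hω e he).symm
  apply Set.Subset.antisymm
  · rintro v ⟨u, hu, huv⟩
    refine huv.induction_right (P := fun v => v ∈ S) ?_ ?_
    · rw [← hcl]
      exact ⟨u, hu, Conn.refl huv.mem_left⟩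
    · intro a b _ h2 h3
      have h4 := explA_step hs hω' h3 h2
      rw [← hcl] at h3 ⊢
      exact cl_step h3 h4
  · intro v hv
    rw [← hcl] at hv
    obtain ⟨u, hu, huv⟩ := hv
    refine ⟨u, hu, ?_⟩
    refine huv.induction_right (P := fun v => Conn ω' D u v) (Conn.refl huv.mem_left) ?_
    intro a b h1 h2 h3
    have ha : a ∈ S := by
      rw [← hcl]
      exact ⟨u, hu, h1⟩
    exact h3.tail (explA_step hs hω ha h2)

/-- More generally any event which only looks at the edges touching the cluster, once the cluster is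
known. -/
theorem localOn_cl_and {s : Finset Edge} {D X S : Set Vert} {A : Set Config}
    (hs : ∀ e, src e ∈ D → tgt e ∈ D → e ∈ s)
    (hA : ∀ ω ω' : Config, (∀ e ∈ touch s S, ω e = ω' e) → cl ω D X = S → cl ω' D X = S →
      ω ∈ A → ω' ∈ A) :
    LocalOn (touch s S) ({ω | cl ω D X = S} ∩ A) := by
  rintro ω ω' hω ⟨h1, h2⟩
  have h3 : cl ω' D X = S := localOn_cl hs ω ω' hω h1
  exact ⟨h3, hA ω ω' hω h1 h3 h2⟩

/-- Connections off `S` are decided by the edges not touching `S`. -/
theorem localOn_conn_off {s : Finset Edge} {D S : Set Vert} {u v : Vert}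
    (hs : ∀ e, src e ∈ D → tgt e ∈ D → e ∈ s) :
    LocalOn (off s S) {ω | Conn ω (D \ S) u v} := by
  intro ω ω' hω h
  exact Conn.congr (fun e h1 h2 => hω e (mem_off.2 ⟨hs e h1.1 h2.1, h1.2, h2.2⟩)) h

/-- Closing the edges of a set. -/
noncomputable def shut (T : Finset Edge) (ω : Config) : Config := by
  classical exact fun e => if e ∈ T then false else ω e

/-- Opening the edges of a set. -/
noncomputable def wide (T : Finset Edge) (ω : Config) : Config := by
  classical exact fun e => if e ∈ T then true else ω e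

private theorem shut_mem {T : Finset Edge} {ω : Config} {e : Edge} (h : e ∈ T) :
    shut T ω e = false := by
  unfold shut
  exact if_pos h

private theorem shut_not_mem {T : Finset Edge} {ω : Config} {e : Edge} (h : e ∉ T) :
    shut T ω e = ω e := by
  unfold shut
  exact if_neg h

private theorem wide_mem {T : Finset Edge} {ω : Config} {e : Edge} (h : e ∈ T) :
    wide T ω e = true := by
  unfold wide
  exact if_pos h

private theorem wide_not_mem {T : Finset Edge} {ω : Config} {e : Edge} (h : e ∉ T) :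
    wide T ω e = ω e := by
  unfold wide
  exact if_neg h

theorem localOn_shut [DecidableEq Edge] {s T : Finset Edge} {A : Set Config} (h : LocalOn s A) :
    LocalOn (s \ T) {ω | shut T ω ∈ A} := by
  intro ω ω' hω hA
  refine h _ _ (fun e he => ?_) hA
  by_cases hT : e ∈ T
  · rw [shut_mem hT, shut_mem hT]
  · rw [shut_not_mem hT, shut_not_mem hT]
    exact hω e (Finset.mem_sdiff.2 ⟨he, hT⟩)

theorem localOn_wide [DecidableEq Edge] {s T : Finset Edge} {A : Set Config} (h : LocalOn s A) :
    LocalOn (s \ T) {ω | wide T ω ∈ A} := by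
  intro ω ω' hω hA
  refine h _ _ (fun e he => ?_) hA
  by_cases hT : e ∈ T
  · rw [wide_mem hT, wide_mem hT]
  · rw [wide_not_mem hT, wide_not_mem hT]
    exact hω e (Finset.mem_sdiff.2 ⟨he, hT⟩)

theorem incr_shut {T : Finset Edge} {A : Set Config} (h : Incr A) : Incr {ω | shut T ω ∈ A} := by
  intro ω ω' hω hA
  refine h _ _ (fun e he => ?_) hA
  by_cases hT : e ∈ T
  · rw [shut_mem hT] at he
    exact absurd he Bool.false_ne_true
  · rw [shut_not_mem hT] at he ⊢
    exact hω e he

theorem incr_wide {T : Finset Edge} {A : Set Config} (h : Incr A) : Incr {ω | wide T ω ∈ A} := by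
  intro ω ω' hω hA
  refine h _ _ (fun e he => ?_) hA
  by_cases hT : e ∈ T
  · exact wide_mem hT
  · rw [wide_not_mem hT] at he ⊢
    exact hω e he

/-- Opening edges makes an increasing event more likely. -/
theorem Pr_le_wide {s T : Finset Edge} {A : Set Config} (h : LocalOn s A) (iA : Incr A) :
    Pr p A ≤ Pr p {ω | wide T ω ∈ A} := by
  refine Pr_mono fun ω hω => iA ω (wide T ω) (fun e he => ?_) hω
  by_cases hT : e ∈ T
  · exact wide_mem hT
  · rw [wide_not_mem hT]
    exact he

/-- Closing edges makes a decreasing event more likely. -/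
theorem Pr_le_shut {s T : Finset Edge} {A : Set Config} (h : LocalOn s A) (iA : Incr Aᶜ) :
    Pr p A ≤ Pr p {ω | shut T ω ∈ A} := by
  refine Pr_mono fun ω hω => ?_
  by_contra hcon
  refine iA (shut T ω) ω (fun e he => ?_) hcon hω
  by_cases hT : e ∈ T
  · rw [shut_mem hT] at he
    exact absurd he Bool.false_ne_true
  · rwa [shut_not_mem hT] at he

end Pool.Agent.H29.Sep
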