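import Pool.Agent.H29.Sep.OuterSplit
import Pool.Agent.H29.Sep.A4Low
import Pool.Agent.H29.Sep.BlockAnn

/-!
# Quasi-multiplicativity for the planar annulus and the gluing inequality on the torus
-/

open MeasureTheory ProbabilityTheory unitInterval

namespace Pool.Agent.H29.Sep

open Pool.Agent.H89.Perc Pool.Agent.H61.NC

theorem a4_nn (q : I) (r : ℕ) : 0 ≤ a4 q r := Pr_nonneg

/-- Iterated regularity. -/
theorem reg_iter {C₁ : ℝ} (hC₁ : 1 ≤ C₁) {n : ℕ} {q : I}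
    (H : ∀ r : ℕ, 1 ≤ r → 64 * r ≤ n → a4 q r ≤ C₁ * a4 q (4 * r)) (j : ℕ) :
    ∀ r ρ : ℕ, 1 ≤ r → r ≤ ρ → ρ ≤ 4 ^ j * r → 64 * ρ ≤ n + 64 → a4 q r ≤ C₁ ^ j * a4 q ρ := by
  induction j with
  | zero =>
    intro r ρ h1 h2 h3 _
    have : r = ρ := by
      have : 4 ^ 0 * r = r := by simp
      omega
    subst this
    simp
  | succ j ih =>
    intro r ρ h1 h2 h3 h4
    rcases h2.eq_or_lt with h | h
    · subst h
      have : (1 : ℝ) ≤ C₁ ^ (j + 1) := one_le_pow₀ hC₁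
      nlinarith [a4_nn q r]
    · have h5 : 64 * r ≤ n := by omega
      have h6 := H r h1 h5
      rcases Nat.lt_or_ge (4 * r) ρ with h7 | h7
      · have h8 := ih (4 * r) ρ (by omega) h7.le (by
          have : 4 ^ (j + 1) * r = 4 ^ j * (4 * r) := by ring
          omega) h4
        calc a4 q r ≤ C₁ * a4 q (4 * r) := h6
          _ ≤ C₁ * (C₁ ^ j * a4 q ρ) := by
              apply mul_le_mul_of_nonneg_left h8 (by linarith)
          _ = C₁ ^ (j + 1) * a4 q ρ := by ring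
      · have h8 : a4 q (4 * r) ≤ a4 q ρ := a4_anti (by omega) h7
        have h9 : (1 : ℝ) ≤ C₁ ^ j := one_le_pow₀ hC₁
        calc a4 q r ≤ C₁ * a4 q (4 * r) := h6
          _ ≤ C₁ * a4 q ρ := mul_le_mul_of_nonneg_left h8 (by linarith)
          _ = C₁ * (1 * a4 q ρ) := by ring
          _ ≤ C₁ * (C₁ ^ j * a4 q ρ) := by
              apply mul_le_mul_of_nonneg_left _ (by linarith)
              exact mul_le_mul_of_nonneg_right h9 (a4_nn q ρ)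
          _ = C₁ ^ (j + 1) * a4 q ρ := by ring

/-- One step of the absorption. -/
theorem qm_step {c : ℝ} {C₁ C₂ ε ε₂ : ℝ} {J R₀ k₀ n : ℕ} {q : I}
    (hR : RSWreg c n q) (hε : 0 ≤ ε) (hC₁ : 1 ≤ C₁) (hC₂ : 0 ≤ C₂)
    (H1 : ∀ r : ℕ, 1 ≤ r → 64 * r ≤ n → a4 q r ≤ C₁ * a4 q (4 * r))
    (H2 : ∀ (t R : ℕ), 1 ≤ t → 4 * t ≤ R → R₀ ≤ R → R ≤ n →
      ∃ F : Finset (Set Vert), F.card ≤ J ∧ (∀ β ∈ F, β ⊆ sphere 0 R) ∧
        Pr q (A2 t R) ≤ ∑ β ∈ F, ∑ γ ∈ F, Pr q (BT t R β γ) + ε₂ * Pr q (A2 t (R / 4)))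
    (H3 : ∀ (k R : ℕ) (L K : Set Vert), k₀ ≤ k → 64 * 4 ^ k ≤ R → R ≤ n →
      L ⊆ sphere 0 R → K ⊆ sphere 0 R →
      a4 q (4 ^ k) * Pr q (BT (4 * 4 ^ k) R L K) ≤
        C₂ * a4 q R + ε * (a4 q (4 ^ (k - 1)) * Pr q (BT (16 * 4 ^ k) R L K)))
    {k m : ℕ} (hk : k₀ ≤ k) (hk1 : 1 ≤ k) (hkm : k + 3 ≤ m) (hm : R₀ ≤ 4 ^ m) (hmn : 4 * 4 ^ m ≤ n) :
    a4 q (4 ^ k) * Pr q (A2 (4 * 4 ^ k) (4 ^ m)) ≤
      (J : ℝ) ^ 2 * C₂ * a4 q (4 ^ m) +
      (J : ℝ) ^ 2 * ε * C₁ ^ 2 * (a4 q (4 ^ (k + 1)) * Pr q (A2 (4 * 4 ^ (k + 1)) (4 ^ m))) +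
      ε₂ * (a4 q (4 ^ k) * Pr q (A2 (4 * 4 ^ k) (4 ^ (m - 1)))) := by
  obtain ⟨i, rfl⟩ : ∃ i, m = k + 3 + i := ⟨m - (k + 3), by omega⟩
  obtain ⟨k', rfl⟩ : ∃ k', k = k' + 1 := ⟨k - 1, by omega⟩
  set m := k' + 1 + 3 + i with hmdef
  have e64 : 64 * 4 ^ (k' + 1) ≤ 4 ^ m := by
    rw [hmdef]
    have : 4 ^ (k' + 1 + 3 + i) = 64 * 4 ^ (k' + 1) * 4 ^ i := by ring
    rw [this]
    exact Nat.le_mul_of_pos_right _ (by positivity)
  have hdiv : 4 ^ m / 4 = 4 ^ (m - 1) := by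
    have : m = (m - 1) + 1 := by omega
    conv_lhs => rw [this, pow_succ]
    simp
  obtain ⟨F, hF1, hF2, hF3⟩ := H2 (4 * 4 ^ (k' + 1)) (4 ^ m) (by
    have : 0 < 4 ^ (k' + 1) := by positivity
    omega) (by omega) hm (by omega)
  rw [hdiv] at hF3
  have hA : 0 ≤ a4 q (4 ^ (k' + 1)) := a4_nn _ _
  have hreg : a4 q (4 ^ k') ≤ C₁ ^ 2 * a4 q (4 ^ (k' + 1 + 1)) := by
    refine reg_iter hC₁ H1 2 (4 ^ k') (4 ^ (k' + 1 + 1)) (Nat.one_le_pow _ _ (by norm_num)) ?_ ?_ ?_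
    · exact Nat.pow_le_pow_right (by norm_num) (by omega)
    · rw [pow_succ, pow_succ]; ring_nf; exact le_rfl
    · have h6 : 64 * 4 ^ (k' + 1 + 1) = 4 * (64 * 4 ^ (k' + 1)) := by ring
      omega
  have e16 : 16 * 4 ^ (k' + 1) = 4 * 4 ^ (k' + 1 + 1) := by ring
  have key : ∀ β ∈ F, ∀ γ ∈ F, a4 q (4 ^ (k' + 1)) * Pr q (BT (4 * 4 ^ (k' + 1)) (4 ^ m) β γ) ≤
      C₂ * a4 q (4 ^ m) + ε * (C₁ ^ 2 *
        (a4 q (4 ^ (k' + 1 + 1)) * Pr q (A2 (4 * 4 ^ (k' + 1 + 1)) (4 ^ m)))) := by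
    intro β hβ γ hγ
    refine (H3 (k' + 1) (4 ^ m) β γ hk e64 (by omega) (hF2 β hβ) (hF2 γ hγ)).trans ?_
    rw [Nat.add_sub_cancel, e16]
    have hb : Pr q (BT (4 * 4 ^ (k' + 1 + 1)) (4 ^ m) β γ) ≤
        Pr q (A2 (4 * 4 ^ (k' + 1 + 1)) (4 ^ m)) := Pr_mono (BT_subset_A2 (hF2 β hβ) (hF2 γ hγ))
    have : a4 q (4 ^ k') * Pr q (BT (4 * 4 ^ (k' + 1 + 1)) (4 ^ m) β γ) ≤
        (C₁ ^ 2 * a4 q (4 ^ (k' + 1 + 1))) * Pr q (A2 (4 * 4 ^ (k' + 1 + 1)) (4 ^ m)) :=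
      mul_le_mul hreg hb Pr_nonneg (by have := a4_nn q (4 ^ (k' + 1 + 1)); positivity)
    have := mul_le_mul_of_nonneg_left this hε
    linarith
  set X := a4 q (4 ^ (k' + 1 + 1)) * Pr q (A2 (4 * 4 ^ (k' + 1 + 1)) (4 ^ m)) with hX
  have hX0 : 0 ≤ X := mul_nonneg (a4_nn _ _) Pr_nonneg
  have hB0 : 0 ≤ C₂ * a4 q (4 ^ m) + ε * (C₁ ^ 2 * X) := by
    have := a4_nn q (4 ^ m)
    positivity
  have hsum : a4 q (4 ^ (k' + 1)) * ∑ β ∈ F, ∑ γ ∈ F, Pr q (BT (4 * 4 ^ (k' + 1)) (4 ^ m) β γ) ≤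
      (J : ℝ) ^ 2 * (C₂ * a4 q (4 ^ m) + ε * (C₁ ^ 2 * X)) := by
    rw [Finset.mul_sum]
    calc ∑ β ∈ F, a4 q (4 ^ (k' + 1)) * ∑ γ ∈ F, Pr q (BT (4 * 4 ^ (k' + 1)) (4 ^ m) β γ)
        ≤ ∑ _β ∈ F, ∑ _γ ∈ F, (C₂ * a4 q (4 ^ m) + ε * (C₁ ^ 2 * X)) := by
          refine Finset.sum_le_sum fun β hβ => ?_
          rw [Finset.mul_sum]
          exact Finset.sum_le_sum fun γ hγ => key β hβ γ hγ
      _ = ((F.card : ℝ) * F.card) * (C₂ * a4 q (4 ^ m) + ε * (C₁ ^ 2 * X)) := by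
          rw [Finset.sum_const, Finset.sum_const, nsmul_eq_mul, nsmul_eq_mul]; ring
      _ ≤ ((J : ℝ) * J) * (C₂ * a4 q (4 ^ m) + ε * (C₁ ^ 2 * X)) := by
          apply mul_le_mul_of_nonneg_right _ hB0
          have : (F.card : ℝ) ≤ J := by exact_mod_cast hF1
          exact mul_le_mul this this (Nat.cast_nonneg _) (Nat.cast_nonneg _)
      _ = (J : ℝ) ^ 2 * (C₂ * a4 q (4 ^ m) + ε * (C₁ ^ 2 * X)) := by ring
  have hfin := mul_le_mul_of_nonneg_left hF3 hA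
  rw [mul_add] at hfin
  calc a4 q (4 ^ (k' + 1)) * Pr q (A2 (4 * 4 ^ (k' + 1)) (4 ^ m))
      ≤ a4 q (4 ^ (k' + 1)) * ∑ β ∈ F, ∑ γ ∈ F, Pr q (BT (4 * 4 ^ (k' + 1)) (4 ^ m) β γ) +
          a4 q (4 ^ (k' + 1)) * (ε₂ * Pr q (A2 (4 * 4 ^ (k' + 1)) (4 ^ (m - 1)))) := hfin
    _ ≤ (J : ℝ) ^ 2 * (C₂ * a4 q (4 ^ m) + ε * (C₁ ^ 2 * X)) +
          a4 q (4 ^ (k' + 1)) * (ε₂ * Pr q (A2 (4 * 4 ^ (k' + 1)) (4 ^ (m - 1)))) := by linarith
    _ = _ := by ring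

/-- Quasi-multiplicativity at powers of four. -/
theorem qm_pow (hB : BadIn) (hG : GLT) (hr : RegA4) : ∀ c : ℝ, 0 < c → ∃ (M : ℝ) (k₀ : ℕ),
    1 ≤ M ∧ 1 ≤ k₀ ∧ ∀ (n : ℕ) (q : I), RSWreg c n q → ∀ m k : ℕ, k₀ ≤ k → k ≤ m →
      64 * 4 ^ m ≤ n → a4 q (4 ^ k) * Pr q (A2 (4 * 4 ^ k) (4 ^ m)) ≤ M * a4 q (4 ^ m) := by
  intro c hc
  obtain ⟨C₁', hC₁', H1'⟩ := hr c hc
  set C₁ : ℝ := max C₁' 1 with hC₁def
  have hC₁ : 1 ≤ C₁ := le_max_right _ _
  have hC₁0 : 0 < C₁ := by linarith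
  obtain ⟨J, R₀, H2⟩ := outer_split hB c (1 / (4 * C₁)) hc (by positivity)
  set ε : ℝ := 1 / (2 * ((J : ℝ) + 1) ^ 2 * C₁ ^ 2) with hεdef
  have hε : 0 < ε := by positivity
  obtain ⟨C₂, k₀, hC₂, hk₀, H3⟩ := hG c ε hc hε
  obtain ⟨c₀, hc₀, H4⟩ := a4_low c hc (4 ^ R₀) (Nat.one_le_pow _ _ (by norm_num))
  set M : ℝ := max (max (C₁ ^ 3) (1 / c₀)) (4 * ((J : ℝ) ^ 2 * C₂)) with hMdef
  have hM1 : C₁ ^ 3 ≤ M := (le_max_left _ _).trans (le_max_left _ _)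
  have hM2 : 1 / c₀ ≤ M := (le_max_right _ _).trans (le_max_left _ _)
  have hM3 : 4 * ((J : ℝ) ^ 2 * C₂) ≤ M := le_max_right _ _
  have hM0 : 1 ≤ M := (one_le_pow₀ hC₁).trans hM1
  refine ⟨M, k₀, hM0, hk₀, fun n q hR => ?_⟩
  have H1 : ∀ r : ℕ, 1 ≤ r → 64 * r ≤ n → a4 q r ≤ C₁ * a4 q (4 * r) := fun r h1 h2 =>
    (H1' n r q h1 h2 hR).trans (mul_le_mul_of_nonneg_right (le_max_left _ _) (a4_nn _ _))
  intro m
  induction m with
  | zero => intro k h1 h2; omega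
  | succ m ihm =>
    intro k hk hkm hmn
    -- downward induction in `k`
    obtain ⟨d, hd⟩ : ∃ d, m + 1 = k + d := ⟨m + 1 - k, by omega⟩
    induction d using Nat.strong_induction_on generalizing k with
    | _ d ihd =>
      have hpos : 0 < 4 ^ m := by positivity
      have e4 : 4 ^ (m + 1) = 4 * 4 ^ m := by ring
      have hP1 : Pr q (A2 (4 * 4 ^ k) (4 ^ (m + 1))) ≤ 1 := Pr_le_one
      have htriv : a4 q (4 ^ k) * Pr q (A2 (4 * 4 ^ k) (4 ^ (m + 1))) ≤ a4 q (4 ^ k) := by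
        have := a4_nn q (4 ^ k)
        nlinarith
      rcases Nat.lt_or_ge d 3 with hd3 | hd3
      · -- `k` close to `m + 1`
        have h1 := reg_iter hC₁ H1 2 (4 ^ k) (4 ^ (m + 1)) (Nat.one_le_pow _ _ (by norm_num))
          (Nat.pow_le_pow_right (by norm_num) hkm) (by
            rw [← pow_add]; exact Nat.pow_le_pow_right (by norm_num) (by omega)) (by omega)
        have h2 : C₁ ^ 2 ≤ M := (pow_le_pow_right₀ hC₁ (by norm_num)).trans hM1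
        calc _ ≤ a4 q (4 ^ k) := htriv
          _ ≤ C₁ ^ 2 * a4 q (4 ^ (m + 1)) := h1
          _ ≤ M * a4 q (4 ^ (m + 1)) := mul_le_mul_of_nonneg_right h2 (a4_nn _ _)
      · rcases Nat.lt_or_ge (4 ^ (m + 1)) R₀ with hR0 | hR0
        · -- small `m`
          have h1 : m + 1 ≤ R₀ := by
            have : m + 1 < 4 ^ (m + 1) := Nat.lt_pow_self (by norm_num)
            omega
          have h2 : a4 q (4 ^ R₀) ≤ a4 q (4 ^ (m + 1)) :=
            a4_anti (Nat.one_le_pow _ _ (by norm_num)) (Nat.pow_le_pow_right (by norm_num) h1)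
          have h3 := H4 n q (by omega) hR
          have h4 : c₀ ≤ a4 q (4 ^ (m + 1)) := h3.trans h2
          calc _ ≤ a4 q (4 ^ k) := htriv
            _ ≤ 1 := a4_le_one _ _
            _ = (1 / c₀) * c₀ := by field_simp
            _ ≤ M * a4 q (4 ^ (m + 1)) := by
                apply mul_le_mul hM2 h4 hc₀.le (by linarith)
        · have h1 := qm_step (k := k) (m := m + 1) hR hε.le hC₁ hC₂.le H1
            (fun t R a b c' d' => H2 n t R q a b c' d' hR)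
            (fun k R L K a b c' d' e' => H3 n k R q L K a b c' hR d' e') hk (by omega) (by omega)
            hR0 (by omega)
          rw [Nat.add_sub_cancel] at h1
          have h2 := ihd (d - 1) (by omega) (k + 1) (by omega) (by omega) (by omega)
          have h3 := ihm k hk (by omega) (by omega)
          have h4 := H1 (4 ^ m) (by omega) (by omega)
          rw [← e4] at h4
          have hJ : (J : ℝ) ^ 2 * ε * C₁ ^ 2 ≤ 1 / 2 := by
            rw [hεdef]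
            have hJ1 : (0 : ℝ) ≤ J := Nat.cast_nonneg _
            have : (J : ℝ) ^ 2 * (1 / (2 * ((J : ℝ) + 1) ^ 2 * C₁ ^ 2)) * C₁ ^ 2 =
                (1 / 2) * ((J : ℝ) ^ 2 / ((J : ℝ) + 1) ^ 2) := by
              field_simp
            rw [this]
            have h5 : (J : ℝ) ^ 2 / ((J : ℝ) + 1) ^ 2 ≤ 1 := by
              rw [div_le_one (by positivity)]
              nlinarith
            linarith
          have hX0 : 0 ≤ a4 q (4 ^ (k + 1)) * Pr q (A2 (4 * 4 ^ (k + 1)) (4 ^ (m + 1))) :=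
            mul_nonneg (a4_nn _ _) Pr_nonneg
          have hY0 : 0 ≤ a4 q (4 ^ (m + 1)) := a4_nn _ _
          have h6 : 1 / (4 * C₁) * (a4 q (4 ^ k) * Pr q (A2 (4 * 4 ^ k) (4 ^ m))) ≤
              (M / 4) * a4 q (4 ^ (m + 1)) := by
            calc 1 / (4 * C₁) * (a4 q (4 ^ k) * Pr q (A2 (4 * 4 ^ k) (4 ^ m)))
                ≤ 1 / (4 * C₁) * (M * (C₁ * a4 q (4 ^ (m + 1)))) := by
                  apply mul_le_mul_of_nonneg_left _ (by positivity)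
                  exact h3.trans (mul_le_mul_of_nonneg_left h4 (by linarith))
              _ = (M / 4) * a4 q (4 ^ (m + 1)) := by field_simp
          have h7 : (J : ℝ) ^ 2 * ε * C₁ ^ 2 *
              (a4 q (4 ^ (k + 1)) * Pr q (A2 (4 * 4 ^ (k + 1)) (4 ^ (m + 1)))) ≤
              (M / 2) * a4 q (4 ^ (m + 1)) := by
            calc _ ≤ (1 / 2) * (a4 q (4 ^ (k + 1)) *
                  Pr q (A2 (4 * 4 ^ (k + 1)) (4 ^ (m + 1)))) :=
                  mul_le_mul_of_nonneg_right hJ hX0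
              _ ≤ (1 / 2) * (M * a4 q (4 ^ (m + 1))) :=
                  mul_le_mul_of_nonneg_left h2 (by norm_num)
              _ = (M / 2) * a4 q (4 ^ (m + 1)) := by ring
          have h8 : (J : ℝ) ^ 2 * C₂ * a4 q (4 ^ (m + 1)) ≤ (M / 4) * a4 q (4 ^ (m + 1)) :=
            mul_le_mul_of_nonneg_right (by linarith) hY0
          linarith

/-- Quasi-multiplicativity. -/
theorem qmann (hB : BadIn) (hG : GLT) (hr : RegA4) : QMann := by
  intro c hc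
  obtain ⟨M, k₀, hM, hk₀, H⟩ := qm_pow hB hG hr c hc
  obtain ⟨C₁', hC₁', H1'⟩ := hr c hc
  set C₁ : ℝ := max C₁' 1 with hC₁def
  have hC₁ : 1 ≤ C₁ := le_max_right _ _
  have hC₁0 : 0 < C₁ := by linarith
  obtain ⟨c₀, hc₀, H4⟩ := a4_low c hc (4 ^ (k₀ + 1)) (Nat.one_le_pow _ _ (by norm_num))
  set D : ℝ := max (C₁ ^ 4) (1 / c₀) with hD
  have hD1 : C₁ ^ 4 ≤ D := le_max_left _ _
  have hD2 : 1 / c₀ ≤ D := le_max_right _ _
  have hD0 : 1 ≤ D := (one_le_pow₀ hC₁).trans hD1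
  refine ⟨D * (M * C₁), by positivity, fun n r R q h1 h2 h3 hR => ?_⟩
  have H1 : ∀ r : ℕ, 1 ≤ r → 64 * r ≤ n → a4 q r ≤ C₁ * a4 q (4 * r) := fun r h1 h2 =>
    (H1' n r q h1 h2 hR).trans (mul_le_mul_of_nonneg_right (le_max_left _ _) (a4_nn _ _))
  have hbig : D ≤ D * (M * C₁) := by
    have : 1 ≤ M * C₁ := by nlinarith
    nlinarith
  -- scales
  obtain ⟨m, hm1, hm2⟩ : ∃ m, 4 ^ m ≤ R ∧ R < 4 ^ (m + 1) := by
    refine ⟨Nat.log 4 R, Nat.pow_log_le_self 4 (by omega), Nat.lt_pow_succ_log_self (by norm_num) R⟩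
  obtain ⟨a, ha1, ha2⟩ : ∃ a, 4 ^ a ≤ 4 * r ∧ 4 * r < 4 ^ (a + 1) := by
    refine ⟨Nat.log 4 (4 * r), Nat.pow_log_le_self 4 (by omega),
      Nat.lt_pow_succ_log_self (by norm_num) _⟩
  have e1 : 4 ^ (m + 1) = 4 * 4 ^ m := by ring
  have e2 : 4 ^ (a + 1) = 4 * 4 ^ a := by ring
  have htriv : a4 q r * Pr q (A2 (16 * r) R) ≤ a4 q r := by
    have h4 : Pr q (A2 (16 * r) R) ≤ 1 := Pr_le_one
    have := a4_nn q r
    nlinarith
  set k := max k₀ (a + 1) with hkdef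
  have hk0 : k₀ ≤ k := le_max_left _ _
  have hka : a + 1 ≤ k := le_max_right _ _
  have hrk : 4 * r ≤ 4 ^ k := ha2.le.trans (Nat.pow_le_pow_right (by norm_num) hka)
  rcases Nat.lt_or_ge k m with hkm | hkm
  · -- main case
    have hsub : A2 (16 * r) R ⊆ A2 (4 * 4 ^ k) (4 ^ m) := by
      refine A2_mono (by omega) (by omega) ?_ hm1
      have : 4 ^ (k + 1) ≤ 4 ^ m := Nat.pow_le_pow_right (by norm_num) hkm
      have e3 : 4 ^ (k + 1) = 4 * 4 ^ k := by ring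
      omega
    have hmain := H n q hR m k hk0 hkm.le (by omega)
    have hreg : a4 q r ≤ D * a4 q (4 ^ k) := by
      rcases Nat.le_total k₀ (a + 1) with hc1 | hc1
      · have hk : k = a + 1 := max_eq_right hc1
        have h5 := reg_iter hC₁ H1 4 r (4 ^ k) h1 (by omega) (by rw [hk]; omega) (by
          rw [hk]; omega)
        exact h5.trans (mul_le_mul_of_nonneg_right hD1 (a4_nn _ _))
      · have hk : k = k₀ := max_eq_left hc1
        have h5 := H4 n q (by omega) hR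
        have h6 : a4 q (4 ^ (k₀ + 1)) ≤ a4 q (4 ^ k) := by
          rw [hk]
          exact a4_anti (Nat.one_le_pow _ _ (by norm_num))
            (Nat.pow_le_pow_right (by norm_num) (by omega))
        calc a4 q r ≤ 1 := a4_le_one _ _
          _ = (1 / c₀) * c₀ := by field_simp
          _ ≤ D * a4 q (4 ^ k) := mul_le_mul hD2 (h5.trans h6) hc₀.le (by linarith)
    have hlast : a4 q (4 ^ m) ≤ C₁ * a4 q R := by
      have h5 := H1 (4 ^ m) (Nat.one_le_pow _ _ (by norm_num)) (by omega)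
      have h6 : a4 q (4 * 4 ^ m) ≤ a4 q R := a4_anti (by omega) (by omega)
      exact h5.trans (mul_le_mul_of_nonneg_left h6 hC₁0.le)
    calc a4 q r * Pr q (A2 (16 * r) R)
        ≤ (D * a4 q (4 ^ k)) * Pr q (A2 (4 * 4 ^ k) (4 ^ m)) :=
          mul_le_mul hreg (Pr_mono hsub) Pr_nonneg (mul_nonneg (by linarith) (a4_nn _ _))
      _ = D * (a4 q (4 ^ k) * Pr q (A2 (4 * 4 ^ k) (4 ^ m))) := by ring
      _ ≤ D * (M * (C₁ * a4 q R)) := by
          apply mul_le_mul_of_nonneg_left _ (by linarith)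
          exact hmain.trans (mul_le_mul_of_nonneg_left hlast (by linarith))
      _ = D * (M * C₁) * a4 q R := by ring
  · -- `r` comparable with `R`, or `R` bounded
    have hgoal : a4 q r ≤ D * a4 q R := by
      rcases Nat.le_total k₀ (a + 1) with hc1 | hc1
      · have hk : k = a + 1 := max_eq_right hc1
        rw [hk] at hkm
        have h5 : 4 ^ m ≤ 4 ^ (a + 1) := Nat.pow_le_pow_right (by norm_num) hkm
        have h6 := reg_iter hC₁ H1 4 r R h1 (by omega) (by omega) (by omega)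
        exact h6.trans (mul_le_mul_of_nonneg_right hD1 (a4_nn _ _))
      · have hk : k = k₀ := max_eq_left hc1
        rw [hk] at hkm
        have h5 := H4 n q (by omega) hR
        have h6 : a4 q (4 ^ (k₀ + 1)) ≤ a4 q R := by
          have h7 : 4 ^ (m + 1) ≤ 4 ^ (k₀ + 1) := Nat.pow_le_pow_right (by norm_num) (by omega)
          exact a4_anti (by omega) (by omega)
        calc a4 q r ≤ 1 := a4_le_one _ _
          _ = (1 / c₀) * c₀ := by field_simp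
          _ ≤ D * a4 q R := mul_le_mul hD2 (h5.trans h6) hc₀.le (by linarith)
    exact htriv.trans (hgoal.trans (mul_le_mul_of_nonneg_right hbig (a4_nn _ _)))

/-- The gluing inequality on the torus. -/
theorem glTorus (hB : BadIn) (hG : GLT) (hr : RegA4) (hS : SepTorus) : GLTorus := by
  intro c hc
  obtain ⟨M, hM, H⟩ := qmann hB hG hr c hc
  obtain ⟨C₁', hC₁', H1'⟩ := hr c hc
  set C₁ : ℝ := max C₁' 1 with hC₁def
  have hC₁ : 1 ≤ C₁ := le_max_right _ _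
  have hC₁0 : 0 < C₁ := by linarith
  obtain ⟨C₃, hC₃, H3⟩ := hS c hc
  refine ⟨(C₁ ^ 4 + C₁ ^ 2 * M) * C₃, by positivity, fun N r q d h1 h2 hR => ?_⟩
  have H1 : ∀ r : ℕ, 1 ≤ r → 64 * r ≤ N → a4 q r ≤ C₁ * a4 q (4 * r) := fun r h1 h2 =>
    (H1' N r q h1 h2 hR).trans (mul_le_mul_of_nonneg_right (le_max_left _ _) (a4_nn _ _))
  have hP1 : Pr q (BlockPiv N (16 * r)) ≤ 1 := Pr_le_one
  have hP0 : 0 ≤ Pr q (BlockPiv N (16 * r)) := Pr_nonneg
  set R := N / 64 + 1 with hRdef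
  have hR1 : N ≤ 64 * R := by omega
  have hR2 : 4 * R ≤ N := by omega
  have h3 := H3 N R q d (by omega) hR1 hR2 hR
  have h4 := a4_nn q r
  have hs0 : 0 ≤ sT q N d := by
    by_contra h
    push Not at h
    have := a4_nn q R
    nlinarith
  rcases Nat.lt_or_ge N (4096 * r) with hs | hs
  · have h5 : a4 q r ≤ C₁ ^ 4 * a4 q R := by
      rcases Nat.lt_or_ge r R with h6 | h6
      · exact reg_iter hC₁ H1 4 r R h1 h6.le (by omega) (by omega)
      · have := a4_anti (q := q) (by omega : 1 ≤ R) h6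
        have h7 : (1 : ℝ) ≤ C₁ ^ 4 := one_le_pow₀ hC₁
        nlinarith [a4_nn q R]
    calc a4 q r * Pr q (BlockPiv N (16 * r)) ≤ a4 q r := by nlinarith
      _ ≤ C₁ ^ 4 * (C₃ * sT q N d) := h5.trans (mul_le_mul_of_nonneg_left h3 (by positivity))
      _ ≤ (C₁ ^ 4 + C₁ ^ 2 * M) * C₃ * sT q N d := by
          have : 0 ≤ C₁ ^ 2 * M * C₃ * sT q N d := by positivity
          nlinarith
  · set ρ := N / 64 with hρ
    have h5 := blockPiv_le (N := N) (ρ := 16 * r) (R := ρ) q (by omega) (by omega) (by omega)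
    have h6 : A2 (16 * r + 2) ρ ⊆ A2 (16 * (2 * r)) ρ :=
      A2_mono (by omega) (by omega) (by omega) le_rfl
    have h7 := H N (2 * r) ρ q (by omega) (by omega) (by omega) hR
    have h8 : a4 q r ≤ C₁ * a4 q (2 * r) :=
      (H1 r h1 h2).trans (mul_le_mul_of_nonneg_left (a4_anti (by omega) (by omega)) hC₁0.le)
    have h9 : a4 q ρ ≤ C₁ * a4 q R := by
      rw [hRdef]
      have h10 := reg_iter hC₁ H1 1 ρ (ρ + 1) (by omega) (by omega) (by omega) (by omega)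
      rwa [pow_one] at h10
    calc a4 q r * Pr q (BlockPiv N (16 * r))
        ≤ (C₁ * a4 q (2 * r)) * Pr q (A2 (16 * (2 * r)) ρ) :=
          mul_le_mul h8 (h5.trans (Pr_mono h6)) hP0 (mul_nonneg hC₁0.le (a4_nn _ _))
      _ = C₁ * (a4 q (2 * r) * Pr q (A2 (16 * (2 * r)) ρ)) := by ring
      _ ≤ C₁ * (M * (C₁ * (C₃ * sT q N d))) := by
          apply mul_le_mul_of_nonneg_left _ hC₁0.le
          refine h7.trans (mul_le_mul_of_nonneg_left ?_ hM.le)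
          exact h9.trans (mul_le_mul_of_nonneg_left h3 hC₁0.le)
      _ ≤ (C₁ ^ 4 + C₁ ^ 2 * M) * C₃ * sT q N d := by
          have : 0 ≤ C₁ ^ 4 * C₃ * sT q N d := by positivity
          nlinarith

end Pool.Agent.H29.Sep
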